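import Pool.Agent.Helper93.PL.St

/-!
# Project PL (MP_d466de), module Stw: large fixed prime divisors are rare
-/

set_option autoImplicit false

namespace Pool.Agent.Helper69.PL

open Finset
open Pool.Agent.Helper61.PV
open Pool.Agent.Helper93.PL

private theorem card_eq {α : Type} (s : Finset α) (P : α → Prop) [DecidablePred P] :
    Nat.card {c : α // c ∈ s ∧ P c} = #(s.filter P) :=
  Nat.subtype_card (s.filter P) (fun _ => Finset.mem_filter)

private theorem ev_zero {d : ℕ} (c : Fin (d + 1) → ℤ) : ev c 0 = c 0 := by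
  unfold ev
  rw [Fin.sum_univ_succ]
  simp

private theorem ev_one {d : ℕ} (c : Fin (d + 1) → ℤ) : ev c 1 = ∑ i, c i := by
  simp [ev]

private theorem bd_zero {d H : ℕ} (hd : 1 ≤ d) (c : Fin (d + 1) → ℤ) (hc : c ∈ Bxx d H) : |c 0| ≤ H := by
  unfold Bxx Bx at hc
  rw [Fintype.mem_piFinset] at hc
  have h := hc 0
  have h0 : ((0 : Fin (d + 1)) : ℕ) < d := by rw [Fin.val_zero]; omega
  simp only [h0, if_true, Finset.mem_Ico] at h
  rw [abs_le]
  push_cast at h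
  omega

/-- the numerical bound -/
private theorem num {w H : ℕ} (hw : 1 ≤ w) (hwH : w ≤ H) :
    ∑ p ∈ Ioc w H, (1 / (p : ℝ) + 1 / (2 * H + 1)) * (1 / p + 1 / H) ≤ 4 / w := by
  have hH0 : (0 : ℝ) < H := by exact_mod_cast (lt_of_lt_of_le hw hwH)
  have h1 : ∀ p ∈ Ioc w H, (1 / (p : ℝ) + 1 / (2 * H + 1)) * (1 / p + 1 / H) ≤ 4 * ((p : ℝ) ^ 2)⁻¹ := by
    intro p hp
    obtain ⟨hp1, hp2⟩ := Finset.mem_Ioc.1 hp
    have hp0 : (0 : ℝ) < p := by exact_mod_cast (lt_of_le_of_lt (Nat.zero_le w) hp1)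
    have hpH : (p : ℝ) ≤ H := by exact_mod_cast hp2
    have ha : 1 / (H : ℝ) ≤ 1 / p := one_div_le_one_div_of_le hp0 hpH
    have hb : 1 / (2 * (H : ℝ) + 1) ≤ 1 / p := one_div_le_one_div_of_le hp0 (by linarith)
    have hc : 4 * ((p : ℝ) ^ 2)⁻¹ = (1 / (p : ℝ) + 1 / p) * (1 / p + 1 / p) := by
      field_simp
      norm_num
    rw [hc]
    have h0 : (0 : ℝ) ≤ 1 / p := by positivity
    have h2 : (0 : ℝ) ≤ 1 / H := by positivity
    exact mul_le_mul (by linarith) (by linarith) (by linarith) (by linarith)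
  refine (Finset.sum_le_sum h1).trans ?_
  rw [← Finset.mul_sum]
  have h3 := sum_Ioc_inv_sq_le_sub (α := ℝ) (k := w) (n := H) (by omega) hwH
  have h4 : (0 : ℝ) ≤ (H : ℝ)⁻¹ := by positivity
  have h5 : 4 / (w : ℝ) = 4 * (w : ℝ)⁻¹ := by rw [div_eq_mul_inv]
  rw [h5]
  refine mul_le_mul_of_nonneg_left ?_ (by norm_num)
  linarith

theorem hStw (hSa1 : StSa1) : Pool.Agent.Helper93.PL.StStw := by
  classical
  intro ε hε
  refine ⟨⌈8 / ε⌉₊ + 1, fun w hw => ⟨w + ⌈1 / ε⌉₊ + 1, fun H hH d hd => ?_⟩⟩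
  have hw1 : 1 ≤ w := by omega
  have hH1 : 1 ≤ H := by omega
  have hwH : w ≤ H := by omega
  have hw0 : (0 : ℝ) < w := by exact_mod_cast hw1
  have hH0 : (0 : ℝ) < H := by exact_mod_cast hH1
  obtain ⟨ha, hb⟩ := hSa1 d H hd hH1
  rw [card_eq] at hb ⊢
  set s := Bxx d H with hs
  have hsub : s.filter (fun c => (∀ p ∈ Pw w, Nz c p < p) ∧ ¬ NFD c) ⊆
      ((Ioc w H).biUnion (fun p : ℕ => s.filter (fun c => (p : ℤ) ∣ c 0 ∧
        (p : ℤ) ∣ (∑ i, c i) - c 0))) ∪ s.filter (fun c => c 0 = 0) := by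
    intro c hc
    obtain ⟨hcs, hcz, hcn⟩ := Finset.mem_filter.1 hc
    unfold NFD at hcn
    push Not at hcn
    obtain ⟨n, hn1, hn⟩ := hcn
    have hp : n.minFac.Prime := Nat.minFac_prime (by omega)
    have hpn : ((n.minFac : ℕ) : ℤ) ∣ (n : ℤ) := Int.natCast_dvd_natCast.2 (Nat.minFac_dvd n)
    have h0 : ((n.minFac : ℕ) : ℤ) ∣ c 0 := by
      have := hn 0
      rw [ev_zero] at this
      exact hpn.trans this
    have h1 : ((n.minFac : ℕ) : ℤ) ∣ ∑ i, c i := by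
      have := hn 1
      rw [ev_one] at this
      exact hpn.trans this
    have hpw : w < n.minFac := by
      by_contra hlt
      push Not at hlt
      have h2 := hcz n.minFac (Finset.mem_filter.2 ⟨Finset.mem_Icc.2 ⟨hp.one_lt.le, hlt⟩, hp⟩)
      have h3 : Nz c n.minFac = n.minFac := by
        unfold Nz
        have h4 : (range n.minFac).filter (fun r : ℕ => ((n.minFac : ℕ) : ℤ) ∣ ev c (r : ℤ)) =
            range n.minFac := Finset.filter_true_of_mem (fun r _ => hpn.trans (hn (r : ℤ)))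
        rw [h4, Finset.card_range]
      omega
    rw [Finset.mem_union]
    by_cases hpH : n.minFac ≤ H
    · left
      rw [Finset.mem_biUnion]
      refine ⟨n.minFac, Finset.mem_Ioc.2 ⟨hpw, hpH⟩, ?_⟩
      exact Finset.mem_filter.2 ⟨hcs, h0, dvd_sub h1 h0⟩
    · right
      refine Finset.mem_filter.2 ⟨hcs, ?_⟩
      have hbd := bd_zero hd c hcs
      apply Int.eq_zero_of_abs_lt_dvd h0
      push Not at hpH
      have : (H : ℤ) < (n.minFac : ℤ) := by exact_mod_cast hpH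
      omega
  have hcard : (#(s.filter (fun c => (∀ p ∈ Pw w, Nz c p < p) ∧ ¬ NFD c)) : ℝ) ≤
      ∑ p ∈ Ioc w H, (1 / (p : ℝ) + 1 / (2 * H + 1)) * (1 / p + 1 / H) * #s +
        1 / (2 * H + 1) * #s := by
    have h1 : #(s.filter (fun c => (∀ p ∈ Pw w, Nz c p < p) ∧ ¬ NFD c)) ≤
        ∑ p ∈ Ioc w H, #(s.filter (fun c => (p : ℤ) ∣ c 0 ∧
          (p : ℤ) ∣ (∑ i, c i) - c 0)) + #(s.filter (fun c => c 0 = 0)) := by
      refine (Finset.card_le_card hsub).trans ((Finset.card_union_le _ _).trans ?_)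
      exact Nat.add_le_add_right Finset.card_biUnion_le _
    have h2 : (#(s.filter (fun c => (∀ p ∈ Pw w, Nz c p < p) ∧ ¬ NFD c)) : ℝ) ≤
        ∑ p ∈ Ioc w H, (#(s.filter (fun c => (p : ℤ) ∣ c 0 ∧
          (p : ℤ) ∣ (∑ i, c i) - c 0)) : ℝ) + #(s.filter (fun c => c 0 = 0)) := by
      exact_mod_cast h1
    refine h2.trans (add_le_add (Finset.sum_le_sum (fun p hp => ?_)) hb)
    have h3 := ha p (le_trans hw1 (Finset.mem_Ioc.1 hp).1.le)
    rwa [card_eq] at h3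
  rw [← Finset.sum_mul, ← add_mul] at hcard
  refine hcard.trans (mul_le_mul_of_nonneg_right ?_ (Nat.cast_nonneg _))
  have h1 := num hw1 hwH
  have h2 : 4 / (w : ℝ) ≤ ε / 2 := by
    have h3 : 8 / ε ≤ w := (Nat.le_ceil _).trans (by exact_mod_cast (by omega : ⌈8 / ε⌉₊ ≤ w))
    rw [div_le_iff₀ hε] at h3
    rw [div_le_iff₀ hw0]
    linarith
  have h4 : 1 / (2 * (H : ℝ) + 1) ≤ ε / 2 := by
    have h3 : 1 / ε ≤ H := (Nat.le_ceil _).trans (by exact_mod_cast (by omega : ⌈1 / ε⌉₊ ≤ H))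
    rw [div_le_iff₀ hε] at h3
    rw [div_le_iff₀ (by linarith)]
    nlinarith
  linarith

end Pool.Agent.Helper69.PL
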